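import Pool.Agent.Helper4.AU.Defs

/-!
# AU, block U2a: subspaces over a field of germs
-/

set_option autoImplicit false

namespace Pool.Agent.SQ

open Filter Module

section

variable {k Λ : Type*} [Field k] [Field Λ] {U : Ultrafilter ℕ} (T : Trz k Λ U) {n q : ℕ}

theorem Trz.rp_zero : ∀ᶠ a in (U : Filter ℕ), T.rp 0 a = 0 := by
  filter_upwards [T.add 0 0] with a h
  rw [add_zero] at h
  exact left_eq_add.1 h

theorem Trz.rp_one : ∀ᶠ a in (U : Filter ℕ), T.rp 1 a = 1 := by
  have h1 : ∀ᶠ a in (U : Filter ℕ), T.rp 1 a = 0 ∨ T.rp 1 a = 1 := by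
    filter_upwards [T.mul 1 1] with a h
    rw [mul_one] at h
    by_cases h0 : T.rp 1 a = 0
    · exact Or.inl h0
    · exact Or.inr (mul_left_cancel₀ h0 (by rw [← h, mul_one]))
  rcases Ultrafilter.eventually_or.1 h1 with h | h
  · refine absurd (T.inj 1 0 ?_) one_ne_zero
    filter_upwards [h, T.rp_zero] with a h1 h2
    rw [h1, h2]
  · exact h

theorem Trz.rp_sum {ι : Type*} (s : Finset ι) (f : ι → Λ) :
    ∀ᶠ a in (U : Filter ℕ), T.rp (∑ i ∈ s, f i) a = ∑ i ∈ s, T.rp (f i) a := by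
  classical
  induction s using Finset.induction_on with
  | empty =>
    filter_upwards [T.rp_zero] with a h
    rw [Finset.sum_empty, Finset.sum_empty, h]
  | insert i s hi ih =>
    filter_upwards [ih, T.add (f i) (∑ i ∈ s, f i)] with a h1 h2
    rw [Finset.sum_insert hi, Finset.sum_insert hi, h2, h1]

theorem Trz.rp_dot {ι : Type*} (s : Finset ι) (f g : ι → Λ) :
    ∀ᶠ a in (U : Filter ℕ), T.rp (∑ i ∈ s, f i * g i) a = ∑ i ∈ s, T.rp (f i) a * T.rp (g i) a := by
  have h : ∀ᶠ a in (U : Filter ℕ), ∀ i ∈ s, T.rp (f i * g i) a = T.rp (f i) a * T.rp (g i) a :=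
    (Finset.eventually_all s).2 fun i _ => T.mul _ _
  filter_upwards [T.rp_sum s fun i => f i * g i, h] with a h1 h2
  rw [h1]
  exact Finset.sum_congr rfl fun i hi => h2 i hi

/-- a vector in a span -/
theorem Trz.vec_span {ι : Type*} [Finite ι] (w : ι → Fin (n + 1) → Λ) (b : ℕ → ι → Fin (n + 1) → k)
    (hb : ∀ i j, ∀ᶠ a in (U : Filter ℕ), T.rp (w i j) a = b a i j) (v : Fin (n + 1) → Λ) (c : ℕ → Fin (n + 1) → k)
    (hc : ∀ j, ∀ᶠ a in (U : Filter ℕ), T.rp (v j) a = c a j) (hv : v ∈ Submodule.span Λ (Set.range w)) :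
    ∀ᶠ a in (U : Filter ℕ), c a ∈ Submodule.span k (Set.range (b a)) := by
  have := Fintype.ofFinite ι
  obtain ⟨d, hd⟩ := (Submodule.mem_span_range_iff_exists_fun Λ).1 hv
  have h : ∀ᶠ a in (U : Filter ℕ), ∀ j, T.rp (∑ i, d i * w i j) a = ∑ i, T.rp (d i) a * T.rp (w i j) a :=
    eventually_all.2 fun j => T.rp_dot _ _ _
  filter_upwards [h, eventually_all.2 fun i => eventually_all.2 (hb i), eventually_all.2 hc] with a ha h2 h3
  refine (Submodule.mem_span_range_iff_exists_fun k).2 ⟨fun i => T.rp (d i) a, ?_⟩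
  funext j
  rw [← h3 j, ← hd, Finset.sum_apply, Finset.sum_apply]
  refine Eq.trans ?_ (ha j).symm
  refine Finset.sum_congr rfl fun i _ => ?_
  rw [h2 i j]
  rfl

/-- linearly independent vectors -/
theorem Trz.vec_li {ι : Type*} [Finite ι] (w : ι → Fin (n + 1) → Λ) (b : ℕ → ι → Fin (n + 1) → k)
    (hb : ∀ i j, ∀ᶠ a in (U : Filter ℕ), T.rp (w i j) a = b a i j) (hw : LinearIndependent Λ w) :
    ∀ᶠ a in (U : Filter ℕ), LinearIndependent k (b a) := by
  classical
  have := Fintype.ofFinite ι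
  obtain ⟨g, hg⟩ : ∃ g : (Fin (n + 1) → Λ) →ₗ[Λ] (ι → Λ), ∀ i, g (w i) = Pi.single i 1 := by
    have hker : LinearMap.ker (Fintype.linearCombination Λ w) = ⊥ := by
      rw [LinearMap.ker_eq_bot]
      exact hw.fintypeLinearCombination_injective
    obtain ⟨g, hg⟩ := LinearMap.exists_leftInverse_of_injective _ hker
    refine ⟨g, fun i => ?_⟩
    have h := LinearMap.congr_fun hg (Pi.single i 1)
    rw [LinearMap.comp_apply, Fintype.linearCombination_apply_single, one_smul] at h
    exact h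
  have hgm : ∀ i i', ∑ j, g (fun j' => if j = j' then 1 else 0) i' * w i j = if i = i' then 1 else 0 := by
    intro i i'
    have h := congrFun (hg i) i'
    rw [LinearMap.pi_apply_eq_sum_univ, Finset.sum_apply] at h
    rw [Pi.single_apply] at h
    rw [show (if i = i' then (1 : Λ) else 0) = if i' = i then 1 else 0 by simp only [eq_comm], ← h]
    refine Finset.sum_congr rfl fun j _ => ?_
    rw [Pi.smul_apply, smul_eq_mul, mul_comm]
  have h1 : ∀ᶠ a in (U : Filter ℕ), ∀ i i', T.rp (∑ j, g (fun j' => if j = j' then 1 else 0) i' * w i j) a =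
      ∑ j, T.rp (g (fun j' => if j = j' then 1 else 0) i') a * T.rp (w i j) a :=
    eventually_all.2 fun i => eventually_all.2 fun i' => T.rp_dot _ _ _
  filter_upwards [h1, T.rp_zero, T.rp_one, eventually_all.2 fun i => eventually_all.2 (hb i)] with a h1 h0 h1' h4
  rw [Fintype.linearIndependent_iff]
  intro c hc i'
  have h2 : ∑ j, T.rp (g (fun j' => if j = j' then 1 else 0) i') a * (∑ i, c i • b a i) j = 0 := by
    rw [hc]
    simp
  have h3 : ∑ j, T.rp (g (fun j' => if j = j' then 1 else 0) i') a * (∑ i, c i • b a i) j =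
      ∑ i, c i * (∑ j, T.rp (g (fun j' => if j = j' then 1 else 0) i') a * T.rp (w i j) a) := by
    simp only [Finset.sum_apply, Finset.mul_sum]
    rw [Finset.sum_comm]
    refine Finset.sum_congr rfl fun i _ => Finset.sum_congr rfl fun j _ => ?_
    rw [h4 i j]
    show _ * (c i * b a i j) = _
    ring
  rw [h3] at h2
  rw [Finset.sum_eq_single i'] at h2
  · rw [← h1, hgm, if_pos rfl, h1', mul_one] at h2
    exact h2
  · intro i _ hi
    rw [← h1, hgm, if_neg hi, h0, mul_zero]
  · intro h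
    exact absurd (Finset.mem_univ _) h

private theorem gm_mem21 (E : Submodule Λ (Fin (n + 1) → Λ)) (v : Fin (n + 1) → Λ) (c : ℕ → Fin (n + 1) → k)
    (h : ∀ j, ∀ᶠ a in (U : Filter ℕ), T.rp (v j) a = c a j) (hv : v ∈ E) : ∀ᶠ a in (U : Filter ℕ), c a ∈ Gm T E a := by
  refine T.vec_span (Classical.choose (exists_spz E)) (fun a i j => T.rp (Classical.choose (exists_spz E) i j) a)
    (fun i j => Eventually.of_forall fun _ => rfl) v c h ?_
  rw [Classical.choose_spec (exists_spz E)]
  exact hv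

theorem gm_span {ι : Type*} [Finite ι] (β : ι → Fin (n + 1) → Λ) (b : ℕ → ι → Fin (n + 1) → k)
    (h : ∀ i j, ∀ᶠ a in (U : Filter ℕ), T.rp (β i j) a = b a i j) :
    ∀ᶠ a in (U : Filter ℕ), Gm T (Submodule.span Λ (Set.range β)) a = Submodule.span k (Set.range (b a)) := by
  have h1 : ∀ᶠ a in (U : Filter ℕ), ∀ i, b a i ∈ Gm T (Submodule.span Λ (Set.range β)) a :=
    eventually_all.2 fun i => gm_mem21 T _ (β i) (fun a => b a i) (h i) (Submodule.subset_span ⟨i, rfl⟩)
  have h2 : ∀ᶠ a in (U : Filter ℕ), ∀ i, (fun j => T.rp (Classical.choose (exists_spz (Submodule.span Λ (Set.range β))) i j) a) ∈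
      Submodule.span k (Set.range (b a)) := by
    refine eventually_all.2 fun i => T.vec_span β b h (Classical.choose (exists_spz (Submodule.span Λ (Set.range β))) i) _
      (fun j => Eventually.of_forall fun _ => rfl) ?_
    have h3 : Classical.choose (exists_spz (Submodule.span Λ (Set.range β))) i ∈
        Submodule.span Λ (Set.range (Classical.choose (exists_spz (Submodule.span Λ (Set.range β))))) :=
      Submodule.subset_span ⟨i, rfl⟩
    rw [Classical.choose_spec (exists_spz (Submodule.span Λ (Set.range β)))] at h3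
    exact h3
  filter_upwards [h1, h2] with a h1 h2
  refine le_antisymm (Submodule.span_le.2 ?_) (Submodule.span_le.2 ?_)
  · rintro _ ⟨i, rfl⟩
    exact h2 i
  · rintro _ ⟨i, rfl⟩
    exact h1 i

theorem gm_finrank (E : Submodule Λ (Fin (n + 1) → Λ)) : ∀ᶠ a in (U : Filter ℕ), finrank k (Gm T E a) = finrank Λ E := by
  have h1 : LinearIndependent Λ fun i => (finBasis Λ E i : Fin (n + 1) → Λ) :=
    (finBasis Λ E).linearIndependent.map' E.subtype (Submodule.ker_subtype E)
  have h2 : Submodule.span Λ (Set.range fun i => (finBasis Λ E i : Fin (n + 1) → Λ)) = E := by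
    have h3 : (Set.range fun i => (finBasis Λ E i : Fin (n + 1) → Λ)) = E.subtype '' Set.range (finBasis Λ E) := by
      rw [← Set.range_comp]
      rfl
    rw [h3, ← Submodule.map_span, (finBasis Λ E).span_eq, Submodule.map_top, Submodule.range_subtype]
  have h4 := gm_span T (fun i => (finBasis Λ E i : Fin (n + 1) → Λ))
    (fun a i j => T.rp ((finBasis Λ E i : Fin (n + 1) → Λ) j) a) (fun i j => Eventually.of_forall fun _ => rfl)
  rw [h2] at h4
  filter_upwards [h4, T.vec_li (fun i => (finBasis Λ E i : Fin (n + 1) → Λ))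
    (fun a i j => T.rp ((finBasis Λ E i : Fin (n + 1) → Λ) j) a) (fun i j => Eventually.of_forall fun _ => rfl) h1] with a h5 h6
  rw [h5, finrank_span_eq_card h6, Fintype.card_fin]

private theorem gm_le21 {E E' : Submodule Λ (Fin (n + 1) → Λ)} (h : E ≤ E') :
    ∀ᶠ a in (U : Filter ℕ), Gm T E a ≤ Gm T E' a := by
  have h1 : ∀ᶠ a in (U : Filter ℕ), ∀ i, (fun j => T.rp (Classical.choose (exists_spz E) i j) a) ∈ Gm T E' a := by
    refine eventually_all.2 fun i => gm_mem21 T E' (Classical.choose (exists_spz E) i) _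
      (fun j => Eventually.of_forall fun _ => rfl) (h ?_)
    have h3 : Classical.choose (exists_spz E) i ∈ Submodule.span Λ (Set.range (Classical.choose (exists_spz E))) :=
      Submodule.subset_span ⟨i, rfl⟩
    rw [Classical.choose_spec (exists_spz E)] at h3
    exact h3
  filter_upwards [h1] with a ha
  refine Submodule.span_le.2 ?_
  rintro _ ⟨i, rfl⟩
  exact ha i

theorem gm_bot : ∀ᶠ a in (U : Filter ℕ), Gm T (⊥ : Submodule Λ (Fin (n + 1) → Λ)) a = ⊥ := by
  filter_upwards [gm_finrank T (⊥ : Submodule Λ (Fin (n + 1) → Λ))] with a ha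
  rw [finrank_bot] at ha
  exact Submodule.finrank_eq_zero.1 ha

theorem gm_top : ∀ᶠ a in (U : Filter ℕ), Gm T (⊤ : Submodule Λ (Fin (n + 1) → Λ)) a = ⊤ := by
  filter_upwards [gm_finrank T (⊤ : Submodule Λ (Fin (n + 1) → Λ))] with a ha
  refine Submodule.eq_top_of_finrank_eq ?_
  rw [ha, finrank_top, Module.finrank_fin_fun, Module.finrank_fin_fun]

theorem gm_sup (E E' : Submodule Λ (Fin (n + 1) → Λ)) :
    ∀ᶠ a in (U : Filter ℕ), Gm T (E ⊔ E') a = Gm T E a ⊔ Gm T E' a := by
  have h0 : Submodule.span Λ (Set.range (Sum.elim (Classical.choose (exists_spz E)) (Classical.choose (exists_spz E')))) =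
      E ⊔ E' := by
    rw [Set.Sum.elim_range, Submodule.span_union, Classical.choose_spec (exists_spz E),
      Classical.choose_spec (exists_spz E')]
  have h1 := gm_span T (Sum.elim (Classical.choose (exists_spz E)) (Classical.choose (exists_spz E')))
    (fun a => Sum.elim (fun i j => T.rp (Classical.choose (exists_spz E) i j) a)
      (fun i j => T.rp (Classical.choose (exists_spz E') i j) a)) (by
        rintro (i | i) j
        · exact Eventually.of_forall fun _ => rfl
        · exact Eventually.of_forall fun _ => rfl)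
  rw [h0] at h1
  filter_upwards [h1] with a ha
  rw [ha, Set.Sum.elim_range, Submodule.span_union]
  rfl

theorem gm_inf (E E' : Submodule Λ (Fin (n + 1) → Λ)) :
    ∀ᶠ a in (U : Filter ℕ), Gm T (E ⊓ E') a = Gm T E a ⊓ Gm T E' a := by
  filter_upwards [gm_sup T E E', gm_le21 T (inf_le_left : E ⊓ E' ≤ E), gm_le21 T (inf_le_right : E ⊓ E' ≤ E'),
    gm_finrank T E, gm_finrank T E', gm_finrank T (E ⊔ E'), gm_finrank T (E ⊓ E')] with a h1 h2 h3 h4 h5 h6 h7
  refine Submodule.eq_of_le_of_finrank_eq (le_inf h2 h3) ?_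
  have h8 := Submodule.finrank_sup_add_finrank_inf_eq (Gm T E a) (Gm T E' a)
  have h9 := Submodule.finrank_sup_add_finrank_inf_eq E E'
  rw [← h1] at h8
  omega

theorem gm_iInf {ι : Type*} (s : Finset ι) (E : ι → Submodule Λ (Fin (n + 1) → Λ)) :
    ∀ᶠ a in (U : Filter ℕ), Gm T (⨅ i ∈ s, E i) a = ⨅ i ∈ s, Gm T (E i) a := by
  classical
  induction s using Finset.induction_on with
  | empty =>
    filter_upwards [gm_top T (n := n)] with a ha
    simpa using ha
  | insert i s hi ih =>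
    filter_upwards [ih, gm_inf T (E i) (⨅ i ∈ s, E i)] with a h1 h2
    rw [Finset.iInf_insert, Finset.iInf_insert, h2, h1]

theorem gm_le (E E' : Submodule Λ (Fin (n + 1) → Λ)) : E ≤ E' ↔ ∀ᶠ a in (U : Filter ℕ), Gm T E a ≤ Gm T E' a := by
  refine ⟨gm_le21 T, fun h => ?_⟩
  have h1 : finrank Λ ↥(E ⊓ E') = finrank Λ ↥E := by
    obtain ⟨a, h1, h2, h3, h4⟩ := (h.and ((gm_inf T E E').and ((gm_finrank T E).and (gm_finrank T (E ⊓ E'))))).exists
    rw [← h4, h2, inf_eq_left.2 h1, h3]
  exact inf_eq_left.1 (Submodule.eq_of_le_of_finrank_eq inf_le_left h1)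

theorem gm_mem (E : Submodule Λ (Fin (n + 1) → Λ)) (v : Fin (n + 1) → Λ) (c : ℕ → Fin (n + 1) → k)
    (h : ∀ j, ∀ᶠ a in (U : Filter ℕ), T.rp (v j) a = c a j) : v ∈ E ↔ ∀ᶠ a in (U : Filter ℕ), c a ∈ Gm T E a := by
  refine ⟨gm_mem21 T E v c h, fun h0 => ?_⟩
  have h1 : Submodule.span Λ (Set.range (fun _ : Unit => v)) ≤ E := by
    rw [gm_le T]
    filter_upwards [h0, gm_span T (fun _ : Unit => v) (fun a _ => c a) fun _ => h] with a h1 h2
    rw [h2, Submodule.span_le]
    rintro _ ⟨i, rfl⟩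
    exact h1
  exact h1 (Submodule.subset_span ⟨(), rfl⟩)

theorem gm_lt (E E' : Submodule Λ (Fin (n + 1) → Λ)) : E < E' ↔ ∀ᶠ a in (U : Filter ℕ), Gm T E a < Gm T E' a := by
  rw [lt_iff_le_not_ge, gm_le T, gm_le T E' E, ← Ultrafilter.eventually_not, ← eventually_and]
  simp only [lt_iff_le_not_ge]

theorem gm_inj (E E' : Submodule Λ (Fin (n + 1) → Λ)) : E = E' ↔ ∀ᶠ a in (U : Filter ℕ), Gm T E a = Gm T E' a := by
  rw [le_antisymm_iff, gm_le T, gm_le T E' E, ← eventually_and]
  simp only [le_antisymm_iff]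

end

end Pool.Agent.SQ
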